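import Pool.Agent.TH854.BV.Growth

/-!
# MP_d7d65f_nt: an explicit bound for `liminf A(n) / n^{1/h}` of `B_h`-sequences of odd order

For odd `h = 2 j + 1 ≥ 3` and every infinite `B_h`-sequence `A`,
`liminf A(n) / n^{1/h} ≤ (j! (j+1)!)^{1/h} / Γ(1 + 1/h)`.

For `h = 3` the constant is `1.4109...`, below every constant `α` for which `F_3(n) ≤ α n^{1/3}` is
known (`(7/2)^{1/3} = 1.518...`), so the bound does not come from finite `B_3`-sets.

Method: the pairs (set of `j+1` elements, set of `j` elements) of elements of `A`, with weights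
`x^{sum}`; the differences of the two sums have the same autocorrelations as the sums, and they
contain all the differences which come from pairs of sets with a common part.  These occur with
the weight of the common part, which gives the second moment of the number of representations
the additional contribution `(1 - 1 / C(h, j))` of the first moment.
-/

set_option autoImplicit false

open Filter

namespace Pool.Agent.Results.MP_d7d65f_nt.LiminfConstant

/-- `A` is a `B_h`-sequence: two different multisets of `h` elements of `A` have different sums. -/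
def IsBh (A : Set ℕ) (h : ℕ) : Prop :=
  ∀ s t : Multiset ℕ, Multiset.card s = h → Multiset.card t = h → (∀ a ∈ s, a ∈ A) →
    (∀ a ∈ t, a ∈ A) → s.sum = t.sum → s = t

/-- the counting function `A(n)`, the number of elements of `A` in `[1, n]` -/
noncomputable def count (A : Set ℕ) (n : ℕ) : ℕ := Set.ncard {a : ℕ | a ∈ A ∧ 1 ≤ a ∧ a ≤ n}

/-- Let `h = 2 j + 1` with `j ≥ 1` and let `A` be an infinite `B_h`-sequence.  For every
`c > (j! (j+1)!)^{1/h} / Γ(1 + 1/h)` there are infinitely many `n` with `A(n) < c n^{1/h}`. In other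
words, `liminf A(n) / n^{1/h} ≤ (j! (j+1)!)^{1/h} / Γ(1 + 1/h)`. -/
theorem result (j : ℕ) (hj : 1 ≤ j) (A : Set ℕ) (hA : A.Infinite) (hB : IsBh A (2 * j + 1)) (c : ℝ)
    (hc : ((j.factorial : ℝ) * ((j + 1).factorial : ℝ)) ^ ((1 : ℝ) / (2 * j + 1)) /
      Real.Gamma (1 + 1 / (2 * j + 1)) < c) :
    ∃ᶠ n : ℕ in atTop, (count A n : ℝ) < c * (n : ℝ) ^ ((1 : ℝ) / (2 * j + 1)) := by
  intro hcon
  have hcon' : ∀ᶠ n : ℕ in atTop, c * (n : ℝ) ^ ((1 : ℝ) / (2 * j + 1)) ≤ (count A n : ℝ) :=
    hcon.mono fun n hn => not_lt.1 hn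
  rw [eventually_atTop] at hcon'
  obtain ⟨n₁, hn₁⟩ := hcon'
  have hf1 : (0 : ℝ) < (j.factorial : ℝ) := by exact_mod_cast Nat.factorial_pos _
  have hf2 : (0 : ℝ) < ((j + 1).factorial : ℝ) := by exact_mod_cast Nat.factorial_pos _
  have hG : 0 < Real.Gamma (1 + 1 / (2 * j + 1)) := Real.Gamma_pos_of_pos (by positivity)
  have hc0 : 0 ≤ c := le_trans (by positivity) hc.le
  have e0 : (((j + 1) + j : ℕ) : ℝ)⁻¹ = (1 : ℝ) / (2 * j + 1) := by
    push_cast
    rw [one_div]
    congr 1
    ring
  have e1 : (j + 1) + j = 2 * j + 1 := by ring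
  have h1 := Pool.Agent.TH854.BV.growth A hA (j + 1) j (by omega) hj 1 0 le_rfl (by
    intro n _
    rw [e1]
    unfold Pool.Agent.H396R2.rep
    rw [Set.ncard_le_one (Pool.Agent.H396R2.rep_set_finite A _ n)]
    rintro s ⟨s1, s2, s3⟩ t ⟨t1, t2, t3⟩
    exact hB s t s1 t1 s2 t2 (s3.trans t3.symm)) c hc0 n₁ (by
    intro n hn
    rw [e0]
    refine (hn₁ n hn).trans ?_
    have : count A n ≤ (Pool.Agent.TH854.BV.FT A n).card := by
      unfold count
      rw [← Set.ncard_coe_finset]
      apply Set.ncard_le_ncard _ (Finset.finite_toSet _)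
      rintro a ⟨a1, a2, a3⟩
      exact Pool.Agent.TH854.BV.mem_FT.2 ⟨a1, a3⟩
    exact_mod_cast this)
  rw [e0] at h1
  have h2 : (((j + 1) + j).factorial : ℝ) * (((1 : ℕ) : ℝ) - 1 + 1 / (((j + 1) + j).choose j : ℝ)) =
      (j.factorial : ℝ) * ((j + 1).factorial : ℝ) := by
    have h3 := Nat.add_choose_mul_factorial_mul_factorial (j + 1) j
    have h4 : 0 < ((j + 1) + j).choose j := Nat.choose_pos (by omega)
    have h5 : (0 : ℝ) < (((j + 1) + j).choose j : ℝ) := by exact_mod_cast h4
    have h6 : (((j + 1) + j).choose j : ℝ) * ((j + 1).factorial : ℝ) * (j.factorial : ℝ) =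
        (((j + 1) + j).factorial : ℝ) := by exact_mod_cast h3
    rw [← h6]
    push_cast
    field_simp
    ring
  rw [h2] at h1
  have h3 : (((j.factorial : ℝ) * ((j + 1).factorial : ℝ)) ^ ((1 : ℝ) / (2 * j + 1))) ^ ((j + 1) + j) =
      (j.factorial : ℝ) * ((j + 1).factorial : ℝ) := by
    rw [← e0]
    exact Real.rpow_inv_natCast_pow (by positivity) (by omega)
  rw [div_lt_iff₀ hG] at hc
  have h4 : (((j.factorial : ℝ) * ((j + 1).factorial : ℝ)) ^ ((1 : ℝ) / (2 * j + 1))) ^ ((j + 1) + j) <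
      (c * Real.Gamma (1 + 1 / (2 * j + 1))) ^ ((j + 1) + j) :=
    pow_lt_pow_left₀ hc (by positivity) (by omega)
  rw [h3, add_comm (1 : ℝ)] at h4
  linarith

end Pool.Agent.Results.MP_d7d65f_nt.LiminfConstant
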